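import Pool.Agent.H72.ES.TwoB

/-! # Numerical lemmas for the two-point theorem with two heights -/

namespace Pool.Agent.H8.UL

open Finset Polynomial Pool.Agent.H72.ES

variable {n Q : ℕ}

theorem weight_bound2 (hn : 4 ≤ n) (hQ : 2 ^ n ≤ Q) (p : ℝ) (hp : 0 ≤ p) (X : ℝ) (hX : 1 ≤ X)
    (la e T : ℕ) (hT : T ≤ 5 * la) (hla : 54 ≤ la) (U G : ℝ) (hU : 0 ≤ U) (hG : 1 ≤ G)
    (h : p * X ^ (2 * la) * X ^ e ≤ U * X ^ T) (s : ℝ) (hs0 : 0 ≤ s)
    (hs : s ≤ bb n Q ^ 3) :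
    6 * ((p * s) * ((2 * X) ^ (2 * la) * ((2 * la + 1) *
      (6 * ((bb n Q ^ 5 * G) * (bb n Q ^ (600 * la) * G ^ 50)))
      * bb n Q ^ 4 * (2 / X * bb n Q ^ 4) ^ T)) * X ^ e) ≤ bb n Q ^ (622 * la) * (U * G ^ 51) := by
  have hb1 := one_le_bb hn hQ
  have h2b := two_pow_le_bb hn hQ
  set b := bb n Q with hb
  have hb0 : 0 < b := lt_of_lt_of_le one_pos hb1
  have hX0 : 0 < X := by linarith
  have hG0 : 0 < G := by linarith
  have h1 : p * X ^ (2 * la) * X ^ e / X ^ T ≤ U := by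
    rw [div_le_iff₀ (by positivity)]
    exact h
  have h10 : 0 ≤ p * X ^ (2 * la) * X ^ e / X ^ T := by positivity
  have hT2 : (2 * b ^ 4) ^ T ≤ (2 * b ^ 4) ^ (5 * la) := by
    apply pow_le_pow_right₀ _ hT
    have : (1 : ℝ) ≤ b ^ 4 := one_le_pow₀ hb1
    linarith
  have hE : (2 * b ^ 4) ^ (5 * la) = 2 ^ (5 * la) * b ^ (20 * la) := by
    rw [mul_pow, ← pow_mul]
    ring_nf
  have hlaR : (0 : ℝ) ≤ la := Nat.cast_nonneg _
  have h3 : (2 : ℝ) ^ (2 * la) * ((2 * la + 1) * 36) * 2 ^ (5 * la) ≤ b ^ la := by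
    calc (2 : ℝ) ^ (2 * la) * ((2 * la + 1) * 36) * 2 ^ (5 * la)
        ≤ 2 ^ (2 * la) * 2 ^ (2 * la + 6) * 2 ^ (5 * la) := by
          gcongr
          exact two_la_le la
      _ = 2 ^ (9 * la + 6) := by rw [← pow_add, ← pow_add]; ring_nf
      _ ≤ 2 ^ (448 * la) := pow_le_pow_right₀ (by norm_num) (by omega)
      _ = (2 ^ 448) ^ la := by rw [pow_mul]
      _ ≤ b ^ la := pow_le_pow_left₀ (by positivity) h2b _
  have h4 : b ^ 12 ≤ b ^ la := pow_le_pow_right₀ hb1 (by omega)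
  calc 6 * ((p * s) * ((2 * X) ^ (2 * la) * ((2 * la + 1) *
      (6 * ((b ^ 5 * G) * (b ^ (600 * la) * G ^ 50)))
      * b ^ 4 * (2 / X * b ^ 4) ^ T)) * X ^ e)
      = (p * X ^ (2 * la) * X ^ e / X ^ T) * s * (2 ^ (2 * la) * ((2 * la + 1) * 36)) *
          (b ^ 9 * b ^ (600 * la)) * (2 * b ^ 4) ^ T * G ^ 51 := by
        have : (2 / X * b ^ 4) ^ T = (2 * b ^ 4) ^ T / X ^ T := by
          rw [← div_pow]
          congr 1
          ring
        rw [this, mul_pow 2 X]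
        ring
    _ ≤ U * b ^ 3 * (2 ^ (2 * la) * ((2 * la + 1) * 36)) *
          (b ^ 9 * b ^ (600 * la)) * (2 ^ (5 * la) * b ^ (20 * la)) * G ^ 51 := by
        rw [← hE]
        gcongr
    _ = b ^ 12 * (2 ^ (2 * la) * ((2 * la + 1) * 36) * 2 ^ (5 * la)) *
          (b ^ (600 * la) * b ^ (20 * la)) * (U * G ^ 51) := by ring
    _ ≤ b ^ la * b ^ la * (b ^ (600 * la) * b ^ (20 * la)) * (U * G ^ 51) := by gcongr
    _ = b ^ (622 * la) * (U * G ^ 51) := by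
        rw [← pow_add, ← pow_add, ← pow_add]
        congr 2
        ring

/-- the coefficients of `h` below `K` are smaller than one -/
theorem small_lt_one2 (hn : 4 ≤ n) (hQ : 2 ^ n ≤ Q) (X : ℝ) (hX : bb n Q ^ 16000 ≤ X)
    (la e k : ℕ) (hla : 1 ≤ la) (he : la < 12 * e) (hk : 48 * n * k ≤ la) (a κ1 : ℝ)
    (ha : 0 ≤ a) (hκ0 : 0 < κ1) (hκ : κ1 ≤ bb n Q * X ^ (n - 1)) (W : ℝ) (hW1 : 1 ≤ W)
    (hW : W ^ 960 ≤ X ^ la)
    (h : a * (X / (4 * κ1 ^ 2)) ^ k * X ^ e ≤ bb n Q ^ (622 * la) * W) : a < 1 := by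
  have hb1 := one_le_bb hn hQ
  have h4b : (4 : ℝ) ≤ bb n Q := le_trans (by norm_num) (thousand_le_bb hn hQ)
  set b := bb n Q with hb
  have hb0 : 0 < b := by linarith
  have hbb : 1 < b := by linarith
  have hX1 : 1 ≤ X := le_trans (one_le_pow₀ hb1) hX
  have hX0 : 0 < X := by linarith
  have hW0 : 0 < W := by linarith
  have h1 : (4 * κ1 ^ 2) ≤ b ^ 3 * X ^ (2 * n - 3) * X := by
    calc 4 * κ1 ^ 2 ≤ 4 * (b * X ^ (n - 1)) ^ 2 := by gcongr
      _ = 4 * b ^ 2 * X ^ (2 * n - 2) := by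
        rw [mul_pow, ← pow_mul]
        have : (n - 1) * 2 = 2 * n - 2 := by omega
        rw [this]; ring
      _ ≤ b * b ^ 2 * X ^ (2 * n - 2) := by gcongr
      _ = b ^ 3 * X ^ (2 * n - 3) * X := by
        have : X ^ (2 * n - 2) = X ^ (2 * n - 3) * X := by
          rw [← pow_succ]
          congr 1
          omega
        rw [this]; ring
  have h2 : (1 : ℝ) ≤ X / (4 * κ1 ^ 2) * (b ^ 3 * X ^ (2 * n - 3)) := by
    rw [div_mul_eq_mul_div, le_div_iff₀ (by positivity), one_mul]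
    linarith
  have h3 : (1 : ℝ) ≤ (X / (4 * κ1 ^ 2)) ^ k * (b ^ (3 * k) * X ^ ((2 * n - 3) * k)) := by
    have := one_le_pow₀ (n := k) h2
    rw [mul_pow, mul_pow, ← pow_mul, ← pow_mul] at this
    exact this
  have h4 : a * X ^ e ≤ b ^ (622 * la) * W * (b ^ (3 * k) * X ^ ((2 * n - 3) * k)) := by
    calc a * X ^ e = a * X ^ e * 1 := by ring
      _ ≤ a * X ^ e * ((X / (4 * κ1 ^ 2)) ^ k * (b ^ (3 * k) * X ^ ((2 * n - 3) * k))) := by
        gcongr
      _ = (a * (X / (4 * κ1 ^ 2)) ^ k * X ^ e) * (b ^ (3 * k) * X ^ ((2 * n - 3) * k)) := by ring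
      _ ≤ _ := by gcongr
  by_contra hcon
  push Not at hcon
  have h5 : X ^ e ≤ b ^ (622 * la) * W * (b ^ (3 * k) * X ^ ((2 * n - 3) * k)) := by
    refine le_trans ?_ h4
    have : 0 < X ^ e := by positivity
    nlinarith
  have hk3 : 3 * k ≤ la := by
    have : 3 * k ≤ 48 * n * k := by
      have : 3 ≤ 48 * n := by omega
      exact Nat.mul_le_mul_right k this
    omega
  have h6 : b ^ (3 * k) ≤ b ^ la := pow_le_pow_right₀ hb1 hk3
  have h7 : X ^ e ≤ b ^ (623 * la) * W * X ^ ((2 * n - 3) * k) := by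
    refine h5.trans ?_
    calc b ^ (622 * la) * W * (b ^ (3 * k) * X ^ ((2 * n - 3) * k))
        ≤ b ^ (622 * la) * W * (b ^ la * X ^ ((2 * n - 3) * k)) := by gcongr
      _ = b ^ (623 * la) * W * X ^ ((2 * n - 3) * k) := by
        have : b ^ (623 * la) = b ^ (622 * la) * b ^ la := by rw [← pow_add]; congr 1; ring
        rw [this]; ring
  have h8 : 24 * ((2 * n - 3) * k) ≤ la := by
    have : 24 * ((2 * n - 3) * k) ≤ 48 * n * k := by
      have : 24 * (2 * n - 3) ≤ 48 * n := by omega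
      calc 24 * ((2 * n - 3) * k) = (24 * (2 * n - 3)) * k := by ring
        _ ≤ 48 * n * k := Nat.mul_le_mul_right k this
    omega
  set g := (2 * n - 3) * k with hg
  have h9 : X ^ (2 * la) ≤ (b ^ (623 * la) * W) ^ 24 * X ^ la := by
    calc X ^ (2 * la) ≤ X ^ (24 * e) := pow_le_pow_right₀ hX1 (by omega)
      _ = (X ^ e) ^ 24 := by rw [← pow_mul]; ring_nf
      _ ≤ (b ^ (623 * la) * W * X ^ g) ^ 24 := pow_le_pow_left₀ (by positivity) h7 _
      _ = (b ^ (623 * la) * W) ^ 24 * X ^ (24 * g) := by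
        rw [mul_pow, ← pow_mul X]
        ring_nf
      _ ≤ (b ^ (623 * la) * W) ^ 24 * X ^ la := by
        gcongr
  have h10 : X ^ la ≤ (b ^ (623 * la) * W) ^ 24 := by
    have : X ^ (2 * la) = X ^ la * X ^ la := by rw [← pow_add]; ring_nf
    rw [this] at h9
    exact le_of_mul_le_mul_right h9 (by positivity)
  have h11 : (X ^ la) ^ 40 ≤ b ^ (598080 * la) * X ^ la := by
    calc (X ^ la) ^ 40 ≤ ((b ^ (623 * la) * W) ^ 24) ^ 40 :=
          pow_le_pow_left₀ (by positivity) h10 _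
      _ = b ^ (598080 * la) * W ^ 960 := by
          rw [← pow_mul, mul_pow, ← pow_mul]
          congr 2
          ring
      _ ≤ b ^ (598080 * la) * X ^ la := by gcongr
  have h12 : (X ^ la) ^ 39 ≤ b ^ (598080 * la) := by
    have : (X ^ la) ^ 40 = (X ^ la) ^ 39 * X ^ la := by rw [pow_succ]
    rw [this] at h11
    exact le_of_mul_le_mul_right h11 (by positivity)
  have h13 : b ^ (624000 * la) ≤ b ^ (598080 * la) := by
    calc b ^ (624000 * la) = ((b ^ 16000) ^ la) ^ 39 := by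
          rw [← pow_mul, ← pow_mul]; congr 1; ring
      _ ≤ (X ^ la) ^ 39 := by gcongr
      _ ≤ b ^ (598080 * la) := h12
  have h14 := (pow_le_pow_iff_right₀ hbb).1 h13
  omega

/-- the final numerical contradiction -/
theorem final_contra2 (hn : 4 ≤ n) (hQ : 2 ^ n ≤ Q) (X : ℝ)
    (hX : bb n Q ^ (400000 * n ^ 2) ≤ X) (la K : ℕ) (hla : 2000 * n ≤ la)
    (hK : la < 48 * n * (K + 1)) (W V : ℝ) (hW1 : 1 ≤ W) (hV0 : 0 ≤ V) (hV : V ^ 6 ≤ W ^ 5)
    (hW : W ^ (1000 * n ^ 2) ≤ X ^ la)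
    (h : X ^ (K - 4) ≤ ((Q : ℝ) ^ (200 * n) * (((2 * la : ℕ) : ℝ) + 13 * n) ^ 36 *
      (bb n Q ^ (600 * la) * V) ^ 6) ^ n) : False := by
  have hb1 := one_le_bb hn hQ
  have h4b : (4 : ℝ) ≤ bb n Q := le_trans (by norm_num) (thousand_le_bb hn hQ)
  have hQb := Q_le_bb hn hQ
  have hbb : 1 < bb n Q := by linarith
  have h2b := two_pow_le_bb hn hQ
  set b := bb n Q with hb
  have hb0 : 0 < b := lt_trans one_pos hbb
  have hX0 : 0 < X := lt_of_lt_of_le (by positivity) hX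
  have hX1 : 1 ≤ X := (one_le_pow₀ hb1).trans hX
  have hW0 : 0 < W := by linarith
  have h1 : (Q : ℝ) ^ (200 * n) ≤ b ^ la := by
    calc (Q : ℝ) ^ (200 * n) ≤ b ^ (200 * n) := pow_le_pow_left₀ (by positivity) hQb _
      _ ≤ b ^ la := pow_le_pow_right₀ hb1 (by omega)
  have h2 : (((2 * la : ℕ) : ℝ) + 13 * n) ^ 36 ≤ b ^ la := by
    have h3 : ((2 * la : ℕ) : ℝ) + 13 * n ≤ 2 ^ (2 * la + 6) := by
      have e1 := two_la_le la
      have e2 : (13 * (n : ℝ)) ≤ la := by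
        have : 13 * n ≤ la := by omega
        exact_mod_cast this
      push_cast
      have e3 : (0 : ℝ) ≤ la := Nat.cast_nonneg _
      linarith
    calc (((2 * la : ℕ) : ℝ) + 13 * n) ^ 36 ≤ (2 ^ (2 * la + 6)) ^ 36 :=
          pow_le_pow_left₀ (by positivity) h3 _
      _ = 2 ^ (72 * la + 216) := by rw [← pow_mul]; ring_nf
      _ ≤ 2 ^ (448 * la) := pow_le_pow_right₀ (by norm_num) (by omega)
      _ = (2 ^ 448) ^ la := by rw [pow_mul]
      _ ≤ b ^ la := pow_le_pow_left₀ (by positivity) h2b _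
  have h5 : X ^ (K - 4) ≤ b ^ (3602 * la * n) * W ^ (5 * n) := by
    refine h.trans ?_
    calc ((Q : ℝ) ^ (200 * n) * (((2 * la : ℕ) : ℝ) + 13 * n) ^ 36 *
          (b ^ (600 * la) * V) ^ 6) ^ n
        = ((Q : ℝ) ^ (200 * n) * (((2 * la : ℕ) : ℝ) + 13 * n) ^ 36 *
          ((b ^ (600 * la)) ^ 6 * V ^ 6)) ^ n := by rw [mul_pow (b ^ (600 * la)) V 6]
      _ ≤ (b ^ la * b ^ la * ((b ^ (600 * la)) ^ 6 * W ^ 5)) ^ n := by gcongr
      _ = b ^ (3602 * la * n) * W ^ (5 * n) := by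
        rw [← mul_assoc, mul_pow, ← pow_mul, ← pow_add, ← pow_add, ← pow_mul, ← pow_mul]
        congr 2
        ring
  have hKbig : 4 ≤ K := by
    by_contra hc
    have : K + 1 ≤ 4 := by omega
    have : 48 * n * (K + 1) ≤ 48 * n * 4 := Nat.mul_le_mul_left _ this
    omega
  obtain ⟨M, rfl⟩ : ∃ M, K = M + 4 := ⟨K - 4, by omega⟩
  simp only [Nat.add_sub_cancel] at h5
  have h8 : la < 48 * (n * M) + 240 * n := by
    calc la < 48 * n * (M + 4 + 1) := hK
      _ = 48 * (n * M) + 240 * n := by ring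
  have h9 : 3 * la ≤ 200 * (n * M) := by omega
  -- raise to the power 200 n
  have h10 : X ^ (3 * la) ≤ b ^ (720400 * n ^ 2 * la) * X ^ la := by
    calc X ^ (3 * la) ≤ X ^ (200 * (n * M)) := pow_le_pow_right₀ hX1 h9
      _ = (X ^ M) ^ (200 * n) := by rw [← pow_mul]; congr 1; ring
      _ ≤ (b ^ (3602 * la * n) * W ^ (5 * n)) ^ (200 * n) :=
          pow_le_pow_left₀ (by positivity) h5 _
      _ = b ^ (720400 * n ^ 2 * la) * W ^ (1000 * n ^ 2) := by
          rw [mul_pow, ← pow_mul, ← pow_mul]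
          congr 2 <;> ring
      _ ≤ b ^ (720400 * n ^ 2 * la) * X ^ la := by gcongr
  have h11 : X ^ (2 * la) ≤ b ^ (720400 * n ^ 2 * la) := by
    have : X ^ (3 * la) = X ^ (2 * la) * X ^ la := by rw [← pow_add]; congr 1; ring
    rw [this] at h10
    exact le_of_mul_le_mul_right h10 (by positivity)
  have h12 : b ^ (800000 * n ^ 2 * la) ≤ b ^ (720400 * n ^ 2 * la) := by
    calc b ^ (800000 * n ^ 2 * la) = (b ^ (400000 * n ^ 2)) ^ (2 * la) := by
          rw [← pow_mul]; congr 1; ring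
      _ ≤ X ^ (2 * la) := pow_le_pow_left₀ (by positivity) hX _
      _ ≤ _ := h11
  have h13 := (pow_le_pow_iff_right₀ hbb).1 h12
  have h14 : 0 < n ^ 2 * la := by
    have : 0 < la := by omega
    positivity
  have h15 : 800000 * (n ^ 2 * la) ≤ 720400 * (n ^ 2 * la) := by
    calc 800000 * (n ^ 2 * la) = 800000 * n ^ 2 * la := by ring
      _ ≤ 720400 * n ^ 2 * la := h13
      _ = 720400 * (n ^ 2 * la) := by ring
  omega

end Pool.Agent.H8.UL
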