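import Pool.Agent.H8.UL.Scale

/-! # Polynomial bound, for polynomials in two variables -/

namespace Pool.Agent.H8.UL

open Finset Polynomial Pool.Agent.H72.ES Pool.Agent.H8.NoPt

/-- array of a polynomial; rows are indexed by the exponent of the second variable -/
noncomputable def toA (n : ℕ) (F : MvPolynomial (Fin 2) ℤ) : ℕ → ℕ → ℤ :=
  tr (arr (toVec n F))

theorem toA_eq {n : ℕ} (F : MvPolynomial (Fin 2) ℤ) {i j : ℕ} (h : i + j ≤ n) :
    toA n F i j = F.coeff (expo j i) := by
  unfold toA tr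
  exact mv_arr n (by omega)

theorem eval_toA {n : ℕ} {F : MvPolynomial (Fin 2) ℤ} (hF : F.totalDegree ≤ n) (x y : ℤ) :
    MvPolynomial.eval ![x, y] F = ev n (toA n F) y x := by
  rw [eval_toVec n hF x y]
  unfold toA
  rw [ev_tr]

theorem leadQ_toA {n : ℕ} {f : MvPolynomial (Fin 2) ℤ} (hf : f.IsHomogeneous n) :
    (leadQ n (toA n f)).homogenize n = f.map (Int.castRingHom ℚ) := by
  ext m
  rw [coeff_homogenize, MvPolynomial.coeff_map]
  have hc : ∀ k, (leadQ n (toA n f)).coeff k =
      if k ≤ n then ((toA n f (n - k) k : ℤ) : ℚ) else 0 := by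
    intro k
    unfold leadQ
    rw [finsetSum_coeff]
    simp only [coeff_C_mul, coeff_X_pow]
    by_cases hk : k ≤ n
    · rw [if_pos hk, sum_eq_single k]
      · simp
      · intro b _ hb
        rw [if_neg (fun h => hb h.symm)]; simp
      · intro hj'; exact absurd (mem_range.mpr (by omega)) hj'
    · rw [if_neg hk]
      refine sum_eq_zero fun b hb => ?_
      rw [mem_range] at hb
      rw [if_neg (by omega)]; simp
  by_cases hm : m 0 + m 1 = n
  · rw [if_pos hm, hc, if_pos (by omega), toA_eq f (by omega)]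
    have h1 : n - m 0 = m 1 := by omega
    rw [h1, mv_expo_eta]
    simp
  · rw [if_neg hm]
    have h0 : f.coeff m = 0 := by
      by_contra hne
      have h1 := hf hne
      rw [Finsupp.weight_apply, mv_sum_smul] at h1
      exact hm h1
    rw [h0]; simp
where
  mv_sum_smul {m : Fin 2 →₀ ℕ} : (m.sum fun i c => c • (1 : Fin 2 → ℕ) i) = m 0 + m 1 := by
    rw [Finsupp.sum_fintype _ _ (fun _ => by simp), Fin.sum_univ_two]
    simp

theorem leadQ_natDegree_le (n : ℕ) (G : ℕ → ℕ → ℤ) : (leadQ n G).natDegree ≤ n := by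
  unfold leadQ
  refine natDegree_sum_le_of_forall_le _ _ fun j hj => ?_
  rw [mem_range] at hj
  exact (natDegree_C_mul_X_pow_le _ _).trans (by omega)

/-- **Polynomial bound for all curves of degree `n ≥ 4` whose leading form is a multiple of a
given form irreducible over `ℚ`.** -/
theorem polynomial_bound (n : ℕ) (hn : 4 ≤ n) (f : MvPolynomial (Fin 2) ℤ)
    (hf : f.IsHomogeneous n) (hirr : Irreducible (f.map (Int.castRingHom ℚ))) :
    ∃ C : ℕ, ∀ (F : MvPolynomial (Fin 2) ℤ) (c : ℤ), c ≠ 0 → F.totalDegree ≤ n →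
      MvPolynomial.homogeneousComponent n F = c • f → ∀ H : ℕ, 2 ≤ H →
      (∀ m, |F.coeff m| ≤ (H : ℤ)) → ∀ x y : ℤ, MvPolynomial.eval ![x, y] F = 0 →
      max |x| |y| ≤ max (C : ℤ) ((H : ℤ) ^ (10 ^ 7 * n ^ 6)) := by
  have h1 : Irreducible ((leadQ n (toA n f)).homogenize n) := by
    rw [leadQ_toA hf]; exact hirr
  obtain ⟨hdeg, hirr'⟩ := dehom (by omega) (leadQ n (toA n f)) (leadQ_natDegree_le n _) h1
  have ha : toA n f 0 n ≠ 0 := by
    intro h0
    have h2 : (leadQ n (toA n f)).coeff n = ((toA n f 0 n : ℤ) : ℚ) := by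
      unfold leadQ
      rw [finsetSum_coeff]
      simp only [coeff_C_mul, coeff_X_pow]
      rw [sum_eq_single n]
      · simp
      · intro b _ hb
        rw [if_neg (fun h => hb h.symm)]; simp
      · intro hj'; exact absurd (mem_range.mpr (by omega)) hj'
    rw [h0] at h2
    have h3 : (leadQ n (toA n f)).leadingCoeff = 0 := by
      rw [leadingCoeff, hdeg, h2]; simp
    rw [leadingCoeff_eq_zero] at h3
    exact hirr'.ne_zero h3
  obtain ⟨C, hC⟩ := uniform_mul hn (toA n f) ha hirr'
  refine ⟨C, ?_⟩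
  intro F c hc hF hlead H hH hbd x y hz
  have h2 := hC c (toA n F) hc ?_ H hH ?_ y x (by rw [← eval_toA hF]; exact hz)
  · rwa [max_comm |y| |x|] at h2
  · intro j hj
    rw [toA_eq F (by omega), toA_eq f (by omega)]
    have h3 := congrArg (MvPolynomial.coeff (expo j (n - j))) hlead
    rw [MvPolynomial.coeff_homogeneousComponent, MvPolynomial.coeff_smul, smul_eq_mul] at h3
    rw [if_pos] at h3
    · exact h3
    · rw [Finsupp.degree_eq_sum, Fin.sum_univ_two, mv_expo_zero, mv_expo_one]
      omega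
  · intro i j hij
    rw [toA_eq F hij]
    exact hbd _

end Pool.Agent.H8.UL
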