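import Pool.Agent.H8.UL.Uniform
import Pool.Agent.H8.NoPt.Mv
import Pool.Agent.H8.NoPt.Basic

/-! # Leading forms proportional to a given form; polynomials in two variables -/

namespace Pool.Agent.H8.UL

open Finset Polynomial Pool.Agent.H72.ES Pool.Agent.H8.NoPt

/-- scaling: leading form `c G0` is replaced by `G0` -/
def scl (n : ℕ) (c : ℤ) (G0 G : ℕ → ℕ → ℤ) : ℕ → ℕ → ℤ :=
  fun i j => if i + j = n then G0 i j else c ^ (n - 1 - i - j) * G i j

theorem ev_scl {n : ℕ} (hn : 1 ≤ n) (c : ℤ) (G0 G : ℕ → ℕ → ℤ)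
    (h : ∀ j ≤ n, G (n - j) j = c * G0 (n - j) j) (x y : ℤ) :
    ev n (scl n c G0 G) (c * x) (c * y) = c ^ (n - 1) * ev n G x y := by
  unfold ev
  rw [mul_sum]
  refine sum_congr rfl fun i hi => ?_
  rw [mul_sum]
  refine sum_congr rfl fun j hj => ?_
  rw [mem_range] at hi hj
  by_cases hij : i + j = n
  · have h1 : G i j = c * G0 i j := by
      have := h j (by omega)
      rwa [show n - j = i by omega] at this
    simp only [scl, hij, if_true]
    rw [h1, mul_pow, mul_pow]
    have h2 : c ^ i * c ^ j = c ^ (n - 1) * c := by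
      rw [← pow_add, ← pow_succ, hij, Nat.sub_add_cancel hn]
    calc G0 i j * (c ^ i * x ^ i) * (c ^ j * y ^ j)
        = (c ^ i * c ^ j) * G0 i j * x ^ i * y ^ j := by ring
      _ = _ := by rw [h2]; ring
  · simp only [scl, hij, if_false]
    rw [mul_pow, mul_pow]
    have h2 : c ^ (n - 1 - i - j) * c ^ i * c ^ j = c ^ (n - 1) := by
      rw [← pow_add, ← pow_add]
      congr 1
      omega
    calc c ^ (n - 1 - i - j) * G i j * (c ^ i * x ^ i) * (c ^ j * y ^ j)
        = (c ^ (n - 1 - i - j) * c ^ i * c ^ j) * (G i j * x ^ i * y ^ j) := by ring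
      _ = _ := by rw [h2]

/-- **Polynomial bound for all leading forms proportional to a given one.** -/
theorem uniform_mul {n : ℕ} (hn : 4 ≤ n) (G0 : ℕ → ℕ → ℤ) (ha : G0 0 n ≠ 0)
    (hirr : Irreducible (leadQ n G0)) : ∃ C : ℕ, ∀ (c : ℤ) (G : ℕ → ℕ → ℤ), c ≠ 0 →
    (∀ j ≤ n, G (n - j) j = c * G0 (n - j) j) → ∀ H : ℕ, 2 ≤ H →
    (∀ i j, i + j ≤ n → |G i j| ≤ (H : ℤ)) → ∀ x y : ℤ, ev n G x y = 0 →
    max |x| |y| ≤ max (C : ℤ) ((H : ℤ) ^ (10 ^ 7 * n ^ 6)) := by
  obtain ⟨C, hC⟩ := uniform hn G0 ha hirr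
  refine ⟨C, ?_⟩
  intro c G hc h H hH hG x y hz
  have hc1 : 1 ≤ |c| := Int.one_le_abs hc
  have hH1 : (1 : ℤ) ≤ H := by exact_mod_cast (by omega : 1 ≤ H)
  have hcH : |c| ≤ (H : ℤ) := by
    have h1 := hG 0 n (by omega)
    have h2 := h n le_rfl
    rw [Nat.sub_self] at h2
    rw [h2, abs_mul] at h1
    have h3 : 1 ≤ |G0 0 n| := Int.one_le_abs ha
    nlinarith
  have hHn : ((H : ℤ)) ≤ (H : ℤ) ^ n := le_self_pow₀ hH1 (by omega)
  have hbd : ∀ i j, i + j ≤ n → |scl n c G0 G i j| ≤ ((H ^ n : ℕ) : ℤ) := by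
    intro i j hij
    push_cast
    by_cases hijn : i + j = n
    · simp only [scl, hijn, if_true]
      have h1 := hG i j hij
      have h2 := h j (by omega)
      rw [show n - j = i by omega] at h2
      rw [h2, abs_mul] at h1
      have h3 : |G0 i j| ≤ |c| * |G0 i j| := by nlinarith [abs_nonneg (G0 i j)]
      linarith
    · simp only [scl, hijn, if_false]
      rw [abs_mul, abs_pow]
      calc |c| ^ (n - 1 - i - j) * |G i j| ≤ (H : ℤ) ^ (n - 1 - i - j) * H :=
            mul_le_mul (pow_le_pow_left₀ (abs_nonneg _) hcH _) (hG i j hij) (abs_nonneg _)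
              (by positivity)
        _ = (H : ℤ) ^ (n - 1 - i - j + 1) := by ring
        _ ≤ (H : ℤ) ^ n := pow_le_pow_right₀ hH1 (by omega)
  have h1 := hC (scl n c G0 G) (fun j hj => by
    simp only [scl]; rw [if_pos (by omega)]) (H ^ n)
    (le_trans hH (Nat.le_self_pow (by omega) H)) hbd (c * x) (c * y)
    (by rw [ev_scl (by omega) c G0 G h, hz, mul_zero])
  have h2 : max |x| |y| ≤ max |c * x| |c * y| := by
    refine max_le_max ?_ ?_
    · rw [abs_mul]; nlinarith [abs_nonneg x]
    · rw [abs_mul]; nlinarith [abs_nonneg y]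
  refine h2.trans (h1.trans ?_)
  refine max_le_max le_rfl (le_of_eq ?_)
  push_cast
  rw [← pow_mul]
  congr 1
  ring

/-- dehomogenisation of an irreducible form -/
theorem dehom {K : Type*} [Field K] {n : ℕ} (hn : 2 ≤ n) (p : K[X]) (hp : p.natDegree ≤ n)
    (hirr : Irreducible (p.homogenize n)) : p.natDegree = n ∧ Irreducible p := by
  have hunit : ∀ (q : K[X]) (k : ℕ), IsUnit (q.homogenize k) → k = 0 := by
    intro q k hq
    have h0 : q.homogenize k ≠ 0 := hq.ne_zero
    have h1 := (isHomogeneous_homogenize q (n := k)).totalDegree h0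
    rw [MvPolynomial.isUnit_iff_totalDegree_of_isReduced] at hq
    rw [← h1]; exact hq.2
  have hp0 : p ≠ 0 := by
    rintro rfl
    rw [homogenize_zero] at hirr
    exact not_irreducible_zero hirr
  have hdeg : p.natDegree = n := by
    by_contra hne
    have hlt : p.natDegree ≤ n - 1 := by omega
    have h1 : p.homogenize n = p.homogenize (n - 1) * (1 : K[X]).homogenize 1 := by
      have := homogenize_mul p (1 : K[X]) (m := n - 1) (n := 1) hlt (by simp)
      rw [mul_one, Nat.sub_add_cancel (by omega)] at this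
      exact this
    rw [h1] at hirr
    rcases hirr.isUnit_or_isUnit rfl with hu | hu
    · have := hunit _ _ hu
      omega
    · have := hunit _ _ hu
      omega
  refine ⟨hdeg, ?_⟩
  rw [irreducible_iff]
  refine ⟨?_, ?_⟩
  · intro hu
    have := natDegree_eq_zero_of_isUnit hu
    omega
  · intro a b hab
    have ha0 : a ≠ 0 := fun h => hp0 (by rw [hab, h, zero_mul])
    have hb0 : b ≠ 0 := fun h => hp0 (by rw [hab, h, mul_zero])
    have hsum : a.natDegree + b.natDegree = n := by
      rw [← natDegree_mul ha0 hb0, ← hab, hdeg]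
    have h1 : p.homogenize n = a.homogenize a.natDegree * b.homogenize b.natDegree := by
      rw [← homogenize_mul a b le_rfl le_rfl, hsum, hab]
    rw [h1] at hirr
    rcases hirr.isUnit_or_isUnit rfl with hu | hu
    · left
      have := hunit _ _ hu
      rw [eq_C_of_natDegree_eq_zero this] at ha0 ⊢
      exact isUnit_C.2 (IsUnit.mk0 _ (fun h => ha0 (by rw [h, map_zero])))
    · right
      have := hunit _ _ hu
      rw [eq_C_of_natDegree_eq_zero this] at hb0 ⊢
      exact isUnit_C.2 (IsUnit.mk0 _ (fun h => hb0 (by rw [h, map_zero])))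

end Pool.Agent.H8.UL
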