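import Pool.Agent.H8.UL.Two
import Pool.Agent.H72.ES.Normalize

/-! # Polynomial bound for all curves with a given leading form -/

namespace Pool.Agent.H8.UL

open Finset Polynomial Pool.Agent.H72.ES

/-- an exceptional (very large) integer point on a curve of the family -/
def Exc (n : ℕ) (f : ℤ[X]) (θ : ℝ) (Q : ℕ) (F : ℕ → ℕ → ℤ) (x y : ℤ) : Prop :=
  Norml n Q f F ∧ ev n F x y = 0 ∧ |(y : ℝ) / x - θ| ≤ 1 / bb n Q ∧
    bb n Q ^ (600000 * n ^ 2) ≤ |(x : ℝ)|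

/-- near one real root all exceptional points are bounded -/
theorem exc_bound {n : ℕ} {f : ℤ[X]} (hf : Irreducible f) (θ : ℝ) (hθ : aeval θ f = 0) :
    ∃ C : ℝ, ∀ Q F x y, Exc n f θ Q F x y → |(x : ℝ)| ≤ C := by
  classical
  by_cases hex : ∃ Q, ∃ F x y, Exc n f θ Q F x y
  · obtain ⟨F1, x1, y1, h1⟩ := Nat.find_spec hex
    have hmin := fun Q => Nat.find_min' hex (m := Q)
    set Q1 := Nat.find hex with hQ1
    refine ⟨|(x1 : ℝ)| ^ (2000 * n), ?_⟩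
    intro Q2 F2 x2 y2 h2
    by_contra hcon
    push Not at hcon
    have hQ12 : Q1 ≤ Q2 := hmin Q2 ⟨F2, x2, y2, h2⟩
    obtain ⟨hN1, hz1, hn1, hb1⟩ := h1
    obtain ⟨hN2, hz2, hn2, hb2⟩ := h2
    obtain ⟨hm, hd, hc⟩ := hN1.lead_props
    obtain ⟨O⟩ := exists_ord ℝ hN1.hn hN1.hQ hm hd hc hf θ hθ
    have hb1' : bb n Q1 ^ (400000 * n ^ 2) ≤ |(x1 : ℝ)| :=
      (pow_le_pow_right₀ (one_le_bb hN1.hn hN1.hQ) (by nlinarith)).trans hb1
    exact two_point2 hf O hQ12 hN1 hN2 x1 y1 x2 y2 hz1 hz2 hn1 hn2 hb1' hb2 hcon.le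
  · refine ⟨0, fun Q F x y h => ?_⟩
    exact absurd ⟨Q, F, x, y, h⟩ hex

/-- all exceptional points are bounded -/
theorem exc_bound_all {n : ℕ} {f : ℤ[X]} (hf : Irreducible f) :
    ∃ C : ℝ, 0 ≤ C ∧ ∀ θ : ℝ, aeval θ f = 0 → ∀ Q F x y, Exc n f θ Q F x y →
      |(x : ℝ)| ≤ C := by
  classical
  have hf0 : f.map (Int.castRingHom ℝ) ≠ 0 := by
    rw [Ne, Polynomial.map_eq_zero_iff (RingHom.injective_int _)]
    exact hf.ne_zero
  have hmem : ∀ θ : ℝ, aeval θ f = 0 → θ ∈ (f.map (Int.castRingHom ℝ)).roots.toFinset := by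
    intro θ hθ
    rw [Multiset.mem_toFinset, mem_roots hf0, IsRoot.def, eval_map]
    exact hθ
  have h1 : ∀ θ : ℝ, ∃ C : ℝ, aeval θ f = 0 → ∀ Q F x y, Exc n f θ Q F x y →
      |(x : ℝ)| ≤ C := by
    intro θ
    by_cases hθ : aeval θ f = 0
    · obtain ⟨C, hC⟩ := exc_bound (n := n) hf θ hθ
      exact ⟨C, fun _ => hC⟩
    · exact ⟨0, fun h => absurd h hθ⟩
  choose C hC using h1
  refine ⟨∑ θ ∈ (f.map (Int.castRingHom ℝ)).roots.toFinset, |C θ|,
    sum_nonneg fun _ _ => abs_nonneg _, ?_⟩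
  intro θ hθ Q F x y h
  refine (hC θ hθ Q F x y h).trans ((le_abs_self _).trans ?_)
  exact single_le_sum (f := fun θ => |C θ|) (fun _ _ => abs_nonneg _) (hmem θ hθ)

theorem nrm_lead_congr {n : ℕ} {G G' : ℕ → ℕ → ℤ} (h : ∀ j ≤ n, G (n - j) j = G' (n - j) j) :
    lead n (nrm n G) = lead n (nrm n G') := by
  unfold lead
  refine sum_congr rfl fun j hj => ?_
  rw [mem_range] at hj
  have h1 := h j (by omega)
  have h2 := h n le_rfl
  rw [Nat.sub_self] at h2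
  simp only [nrm]
  rw [h1, h2]

theorem leadQ_congr {n : ℕ} {G G' : ℕ → ℕ → ℤ} (h : ∀ j ≤ n, G (n - j) j = G' (n - j) j) :
    leadQ n G = leadQ n G' := by
  unfold leadQ
  refine sum_congr rfl fun j hj => ?_
  rw [mem_range] at hj
  rw [h j (by omega)]

/-- **Polynomial bound for a given leading form.** -/
theorem uniform {n : ℕ} (hn : 4 ≤ n) (G0 : ℕ → ℕ → ℤ) (ha : G0 0 n ≠ 0)
    (hirr : Irreducible (leadQ n G0)) : ∃ C : ℕ, ∀ G : ℕ → ℕ → ℤ,
    (∀ j ≤ n, G (n - j) j = G0 (n - j) j) → ∀ H : ℕ, 2 ≤ H →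
    (∀ i j, i + j ≤ n → |G i j| ≤ (H : ℤ)) → ∀ x y : ℤ, ev n G x y = 0 →
    max |x| |y| ≤ max (C : ℤ) ((H : ℤ) ^ (10 ^ 7 * n ^ 5)) := by
  set f := lead n (nrm n G0) with hfdef
  have hf : Irreducible f := lead_nrm_irreducible (by omega) G0 ha hirr
  obtain ⟨C, hC0, hC⟩ := exc_bound_all (n := n) hf
  refine ⟨⌈C ^ 2⌉₊ + ⌈C⌉₊, ?_⟩
  intro G hG0 H hH hG x y hz
  have haG : G 0 n ≠ 0 := by
    have := hG0 n le_rfl
    rw [Nat.sub_self] at this
    rw [this]; exact ha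
  have hlead : lead n (nrm n G) = f := nrm_lead_congr hG0
  set a := G 0 n with hadef
  set M : ℕ := H ^ n with hM
  set Q : ℕ := 2 * M with hQ
  have hM2 : 2 ^ n ≤ M := Nat.pow_le_pow_left hH n
  have hfam : Fam n Q M f (nrm n G) :=
    { hn := hn
      hQ := by omega
      hM := le_refl _
      irr := hf
      lead_eq := hlead
      top := by simp [nrm]
      bound := fun i j hij => nrm_bound (by omega) G H (by omega) hG i j hij }
  have hN := hfam.norml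
  have hz' : ev n (nrm n G) x (a * y) = 0 := by
    rw [hadef, ev_nrm (by omega), hz, mul_zero]
  have hy' : |y| ≤ |a * y| := by
    rw [abs_mul]
    have : 1 ≤ |a| := Int.one_le_abs haG
    nlinarith [abs_nonneg y]
  have hmax : max |x| |y| ≤ max |x| |a * y| := max_le_max le_rfl hy'
  have hQ1 := one_le_QR hfam.hn hfam.hQ
  have hb1 := one_le_bb hfam.hn hfam.hQ
  have hHR : (1 : ℝ) ≤ H := by exact_mod_cast (by omega : 1 ≤ H)
  set T : ℕ := 600000 * n ^ 2 with hT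
  by_cases hsmall : ((max |x| |a * y| : ℤ) : ℝ) < (Q : ℝ) ^ 2 * bb n Q ^ T
  · -- not exceptional
    refine le_max_of_le_right ?_
    have h1 : ((max |x| |y| : ℤ) : ℝ) ≤ (((H : ℤ) ^ (10 ^ 7 * n ^ 5) : ℤ) : ℝ) := by
      have h2 : ((max |x| |y| : ℤ) : ℝ) ≤ ((max |x| |a * y| : ℤ) : ℝ) := by exact_mod_cast hmax
      refine (h2.trans hsmall.le).trans ?_
      have hQH : (Q : ℝ) ≤ (H : ℝ) ^ (n + 1) := by
        rw [hQ, hM]
        push_cast
        have : (2 : ℝ) ≤ H := by exact_mod_cast hH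
        calc 2 * (H : ℝ) ^ n ≤ H * (H : ℝ) ^ n := by gcongr
          _ = (H : ℝ) ^ (n + 1) := by ring
      have hQ0 : (0 : ℝ) ≤ Q := Nat.cast_nonneg _
      unfold bb
      push_cast
      calc (Q : ℝ) ^ 2 * ((Q : ℝ) ^ (7 * n ^ 2)) ^ T = (Q : ℝ) ^ (2 + 4200000 * n ^ 4) := by
            rw [← pow_mul, ← pow_add, hT]
            congr 1
            ring
        _ ≤ ((H : ℝ) ^ (n + 1)) ^ (2 + 4200000 * n ^ 4) := pow_le_pow_left₀ hQ0 hQH _
        _ = (H : ℝ) ^ ((n + 1) * (2 + 4200000 * n ^ 4)) := by rw [← pow_mul]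
        _ ≤ (H : ℝ) ^ (10 ^ 7 * n ^ 5) := by
            refine pow_le_pow_right₀ hHR ?_
            have h4 : 2 + 4200000 * n ^ 4 ≤ 4200001 * n ^ 4 := by
              have : 2 ≤ n ^ 4 := by
                calc 2 ≤ 4 ^ 4 := by norm_num
                  _ ≤ n ^ 4 := Nat.pow_le_pow_left hn 4
              omega
            calc (n + 1) * (2 + 4200000 * n ^ 4) ≤ (2 * n) * (4200001 * n ^ 4) :=
                  Nat.mul_le_mul (by omega) h4
              _ = 8400002 * n ^ 5 := by ring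
              _ ≤ 10 ^ 7 * n ^ 5 := Nat.mul_le_mul_right _ (by norm_num)
    exact_mod_cast h1
  · -- exceptional
    refine le_max_of_le_left ?_
    push Not at hsmall
    have hT250 : 250 * n ≤ T := by
      rw [hT]; nlinarith
    have hbig : (Q : ℝ) ^ 2 * bb n Q ^ (250 * n) ≤ ((max |x| |a * y| : ℤ) : ℝ) := by
      refine le_trans ?_ hsmall
      exact mul_le_mul_of_nonneg_left (pow_le_pow_right₀ hb1 hT250) (by positivity)
    have hs0 : |ev n (nrm n G) x (a * y)| ≤ (M : ℤ) := by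
      rw [hz', abs_zero]; exact Int.natCast_nonneg M
    obtain ⟨hx250, θ, hθ, hnear⟩ := far_point hfam x (a * y) hs0 hbig
    -- slope
    have hlt : (Q : ℤ) ^ 5 < max |x| |a * y| := by
      have : (Q : ℝ) ^ 5 < ((max |x| |a * y| : ℤ) : ℝ) := by
        have hQb5 : (Q : ℝ) ^ 5 ≤ bb n Q := Qpow_le_bb hfam.hn hfam.hQ (by nlinarith)
        have hbT : bb n Q ≤ bb n Q ^ T := by
          calc bb n Q = bb n Q ^ 1 := (pow_one _).symm
            _ ≤ bb n Q ^ T := pow_le_pow_right₀ hb1 (by omega)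
        have hQ16 := sixteen_leR hfam.hn hfam.hQ
        have e1 : (1 : ℝ) < (Q : ℝ) ^ 2 := one_lt_pow₀ (by linarith) (by norm_num)
        have e2 : 0 < bb n Q ^ T := by positivity
        calc (Q : ℝ) ^ 5 ≤ bb n Q ^ T := hQb5.trans hbT
          _ < (Q : ℝ) ^ 2 * bb n Q ^ T := by nlinarith
          _ ≤ _ := hsmall
      exact_mod_cast this
    have hslope := slope_bound hN x (a * y) (by
      rw [hz', abs_zero]; exact Int.natCast_nonneg Q) hlt
    have hslopeR : |((a * y : ℤ) : ℝ)| ≤ (Q : ℝ) ^ 2 * |(x : ℝ)| := by exact_mod_cast hslope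
    have hxT : bb n Q ^ T ≤ |(x : ℝ)| := by
      have e1 : ((max |x| |a * y| : ℤ) : ℝ) ≤ (Q : ℝ) ^ 2 * |(x : ℝ)| := by
        have e3 : ((max |x| |a * y| : ℤ) : ℝ) = max |(x : ℝ)| |((a * y : ℤ) : ℝ)| := by
          push_cast; rfl
        rw [e3]
        refine max_le ?_ hslopeR
        have e2 : (1 : ℝ) ≤ (Q : ℝ) ^ 2 := one_le_pow₀ hQ1
        nlinarith [abs_nonneg (x : ℝ)]
      exact le_of_mul_le_mul_left (hsmall.trans e1) (by positivity)
    have hexc : Exc n f θ Q (nrm n G) x (a * y) := ⟨hN, hz', hnear, hxT⟩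
    have hxC := hC θ hθ Q _ _ _ hexc
    have hQ2C : (Q : ℝ) ^ 2 ≤ C := by
      have hQb : (Q : ℝ) ^ 2 ≤ bb n Q := Qpow_le_bb hfam.hn hfam.hQ (by nlinarith)
      have hbT : bb n Q ≤ bb n Q ^ T := by
        calc bb n Q = bb n Q ^ 1 := (pow_one _).symm
          _ ≤ bb n Q ^ T := pow_le_pow_right₀ hb1 (by omega)
      exact hQb.trans (hbT.trans (hxT.trans hxC))
    have hyC : |(y : ℝ)| ≤ C ^ 2 := by
      have e1 : |(y : ℝ)| ≤ |((a * y : ℤ) : ℝ)| := by exact_mod_cast hy'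
      calc |(y : ℝ)| ≤ (Q : ℝ) ^ 2 * |(x : ℝ)| := e1.trans hslopeR
        _ ≤ C * C := mul_le_mul hQ2C hxC (abs_nonneg _) hC0
        _ = C ^ 2 := by ring
    have hfin : ((max |x| |y| : ℤ) : ℝ) ≤ ((⌈C ^ 2⌉₊ + ⌈C⌉₊ : ℕ) : ℝ) := by
      push_cast
      refine max_le ?_ ?_
      · have := Nat.le_ceil C
        have h2 : (0 : ℝ) ≤ (⌈C ^ 2⌉₊ : ℝ) := Nat.cast_nonneg _
        linarith
      · have := Nat.le_ceil (C ^ 2)
        have h2 : (0 : ℝ) ≤ (⌈C⌉₊ : ℝ) := Nat.cast_nonneg _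
        linarith
    exact_mod_cast hfin

end Pool.Agent.H8.UL
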